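import Pool.Agent.TH826.DC.Tori
import Pool.Agent.TH826.GA.Final
set_option autoImplicit false

/-!
The regulators of the symbols of the simplices on the double covers, for large `λ`.
-/

namespace Pool.Agent.TH826.DC

open Filter Topology

open Pool.Agent.TH826.MK

open Pool.Agent.TH826.GA

open Pool.Agent.TH826.SX (Nice exists_nice zt good_circ lw_circ zt_add_single good_nice lw_nice
  norm_zt_le det_ne_zero_near pairing_close circ_ne_zero)

section circles

variable {n : ℕ} {ι : Type*} [Fintype ι] [DecidableEq ι] {T : Fin n → ι}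
  {H : ι → (Fin n → ℂ) → ℂ}

/-- the orders of the functions at the vertex `T` -/
noncomputable def wT (T : Fin n → ι) (e : ι) (j : Fin n) : ℝ := if T j = e then 1 else 0

/-- The tori at the vertices. -/
theorem exists_circles (hT : Function.Injective T) (hH : ∀ e, ContDiff ℂ 2 (H e))
    (hTH : ∀ j w, H (T j) w = w j) (hH0 : ∀ e, (∀ j, T j ≠ e) → H e 0 ≠ 0) {ε : ℝ}
    (hε : 0 < ε) :
    ∃ (C : ℝ) (X : (Fin n → ℝ) → (Fin n → ℂ)), 0 ≤ C ∧ ContDiff ℝ 2 X ∧
      (∀ θ i, X (θ + Pi.single i 1) = X θ) ∧ (∀ e, Good fun θ => H e (X θ)) ∧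
      ∀ e θ, |Real.log ‖H e (X θ)‖| ≤ C ∧
        ∀ j, ‖lw (fun θ => H e (X θ)) j θ - 2 * Real.pi * Complex.I * wT T e j‖ ≤ ε := by
  classical
  set φ : ι → (Fin n → ℂ) × ℂ → ℂ := fun e ζ => if (∀ j, T j ≠ e) then H e ζ.1 else 1 with hφ
  have hφc : ∀ e, ContDiff ℂ 2 (φ e) := by
    intro e
    by_cases h : ∀ j, T j ≠ e
    · have e1 : φ e = fun ζ => H e ζ.1 := by
        funext ζ
        simp only [hφ]
        rw [if_pos h]
      rw [e1]
      exact (hH e).comp contDiff_fst
    · have e1 : φ e = fun _ => 1 := by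
        funext ζ
        simp only [hφ]
        rw [if_neg h]
      rw [e1]
      exact contDiff_const
  have hφ0 : ∀ e, φ e 0 ≠ 0 := by
    intro e
    simp only [hφ]
    by_cases h : ∀ j, T j ≠ e
    · rw [if_pos h]
      exact hH0 e h
    · rw [if_neg h]
      exact one_ne_zero
  choose C hC using fun e => exists_nice ((hφc e).contDiffAt) (hφ0 e)
  have hall := eventually_all.2 fun e => hC e
  obtain ⟨δ, hδ, hball⟩ := Metric.eventually_nhds_iff.1 hall
  set C0 : ℝ := ∑ e, |C e| with hC0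
  have hC00 : 0 ≤ C0 := Finset.sum_nonneg fun k _ => abs_nonneg _
  have hCle : ∀ e, C e ≤ C0 := fun e =>
    (le_abs_self _).trans (Finset.single_le_sum (f := fun e => |C e|)
      (fun j _ => abs_nonneg _) (Finset.mem_univ e))
  have hnice : ∀ e, Nice δ C0 (φ e) := by
    intro e ζ hζ
    have h := hball (y := ζ) (by rwa [dist_zero_right])
    obtain ⟨a1, a2, a3, a4⟩ := h e
    exact ⟨a1, a2, a3.trans (hCle e), a4.trans (hCle e)⟩
  set ρ : ℝ := min (δ / 2) (ε / (2 * Real.pi * (C0 + 1))) with hρdef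
  have hpi := Real.pi_pos
  have hρ : 0 < ρ := lt_min (by linarith) (by positivity)
  have hρδ : ρ < δ := (min_le_left _ _).trans_lt (by linarith)
  have hρε : C0 * (2 * Real.pi * ρ) ≤ ε := by
    have h1 : ρ ≤ ε / (2 * Real.pi * (C0 + 1)) := min_le_right _ _
    rw [le_div_iff₀ (by positivity)] at h1
    calc C0 * (2 * Real.pi * ρ) ≤ (C0 + 1) * (2 * Real.pi * ρ) :=
          mul_le_mul_of_nonneg_right (by linarith) (by positivity)
      _ = ρ * (2 * Real.pi * (C0 + 1)) := by ring
      _ ≤ ε := h1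
  set η : ℂ := ((ρ ^ (n + 1) : ℝ) : ℂ) with hη
  have hη0 : η ≠ 0 := by
    rw [hη]
    exact_mod_cast (pow_pos hρ _).ne'
  have hηρ : ‖η‖ ≤ ρ ^ (n + 1) := by
    rw [hη, Complex.norm_real, Real.norm_eq_abs, abs_of_pos (pow_pos hρ _)]
  refine ⟨C0 + |Real.log ρ|, fun θ => (zt ρ η θ).1, by positivity, ?_, fun θ i => ?_, ?_, ?_⟩
  · exact contDiff_pi.2 fun k => (good_circ hρ k).smooth
  · show (zt ρ η (θ + Pi.single i 1)).1 = _
    rw [zt_add_single]
  · intro e
    by_cases h : ∀ j, T j ≠ e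
    · have h1 := good_nice hρ hρδ hη0 hηρ (hnice e)
      simp only [hφ, if_pos h] at h1
      exact h1
    · push Not at h
      obtain ⟨j, rfl⟩ := h
      simp only [hTH]
      exact good_circ hρ j
  · intro e θ
    by_cases h : ∀ j, T j ≠ e
    · have h1 := fun j => lw_nice hρ hρδ hη0 hηρ (hnice e) j θ
      have h2 := (hnice e (zt ρ η θ) ((norm_zt_le hρ hηρ θ).trans_lt hρδ)).2.2.1
      simp only [hφ, if_pos h] at h1 h2
      refine ⟨h2.trans (by linarith [abs_nonneg (Real.log ρ)]), fun j => ?_⟩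
      have h3 : wT T e j = 0 := by
        unfold wT
        rw [if_neg (h j)]
      rw [h3, Complex.ofReal_zero, mul_zero, sub_zero]
      exact (h1 j).trans hρε
    · push Not at h
      obtain ⟨j0, rfl⟩ := h
      simp only [hTH]
      refine ⟨?_, fun j => ?_⟩
      · show |Real.log ‖circ ρ (θ j0)‖| ≤ _
        rw [norm_circ hρ.le]
        linarith
      · have h1 := lw_circ hρ j0 j θ
        have h2 : lw (fun θ : Fin n → ℝ => (zt ρ η θ).1 j0) j θ =
            if j = j0 then 2 * Real.pi * Complex.I else 0 := h1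
        rw [h2]
        unfold wT
        by_cases h : j = j0
        · rw [if_pos h, if_pos (by rw [h])]
          simpa using hε.le
        · rw [if_neg h, if_neg fun h' => h (hT h')]
          simpa using hε.le

end circles

section main

variable {K : Type*} [Field K] {d m : ℕ} {c : Fin (m + 1) → Fin (d + 1) → K}
  {a : Fin (m + 1) → K}

/-- the point with the coordinates `w` at the vertex `T` -/
noncomputable def xw (σ : K →+* ℂ) (c : Fin (m + 1) → Fin (d + 1) → K) (a : Fin (m + 1) → K)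
    (T : Fin (d + 1) → Fin (m + 1)) (w : Fin (d + 1) → ℂ) : Fin (d + 1) → ℂ :=
  xv σ c a T (fun k => w k.succ, w 0)

theorem lc_xw (σ : K →+* ℂ) (T : Fin (d + 1) → Fin (m + 1)) (w : Fin (d + 1) → ℂ)
    (e : Fin (m + 1)) : lc σ c a (xw σ c a T w) e =
      ∑ l, σ (al c T e l) * w l + σ (be c a T e) := by
  have h : (Fin.cons (w 0) (fun k : Fin d => w k.succ) : Fin (d + 1) → ℂ) = w := by
    funext j
    refine Fin.cases ?_ (fun j => ?_) j
    · rfl
    · rfl
  unfold xw
  rw [lc_xv]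
  simp only [h]

theorem contDiff_xw (σ : K →+* ℂ) (T : Fin (d + 1) → Fin (m + 1)) :
    ContDiff ℂ 2 (xw σ c a T) := by
  have h : ContDiff ℂ 2 fun w : Fin (d + 1) → ℂ =>
      ((fun k : Fin d => w k.succ, w 0) : (Fin d → ℂ) × ℂ) :=
    (contDiff_pi.2 fun k : Fin d => contDiff_apply ℂ ℂ k.succ).prodMk (contDiff_apply ℂ ℂ 0)
  exact (contDiff_xv σ T).comp h

theorem contDiff_lcw (σ : K →+* ℂ) (T : Fin (d + 1) → Fin (m + 1)) (e : Fin (m + 1)) :
    ContDiff ℂ 2 fun w => lc σ c a (xw σ c a T w) e := by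
  unfold lc
  exact (ContDiff.sum fun j _ => contDiff_const.mul
    (contDiff_pi.1 (contDiff_xw σ T) j)).sub contDiff_const

/-- the matrix of the orders of the entries at the vertex `T` -/
noncomputable def RM (T : Fin (d + 1) → Fin (m + 1)) (S : Fin (d + 2) → Fin (m + 1)) :
    Matrix (Fin (d + 2)) (Fin (d + 2)) ℝ :=
  Matrix.of (Fin.cons (fun _ => 1) fun k : Fin (d + 1) =>
    Fin.cons 0 fun j => wT T (S k.succ) j - wT T (S 0) j)

theorem exists_torus (σ : K →+* ℂ)
    (hdet : ∀ T : Fin (d + 1) → Fin (m + 1), Function.Injective T → (cm c T).det ≠ 0)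
    (hgen : ∀ S : Fin (d + 2) → Fin (m + 1), Function.Injective S → ∀ x : Fin (d + 1) → K,
      ∃ i, ∑ j, c (S i) j * x j ≠ a (S i))
    {T : Fin (d + 1) → Fin (m + 1)} (hT : Function.Injective T) {ε : ℝ} (hε : 0 < ε) :
    ∃ Λ : ℝ, 1 < Λ ∧ ∀ lam : K, Λ ≤ ‖σ lam‖ → ∃ Γ : Torus (DOpen lam c a) (d + 1),
      (∀ θ x, Γ.e θ (dcst lam c a x) = σ x) ∧
      ∀ S : Fin (d + 2) → Fin (m + 1), Function.Injective S →
        |Γ.reg (symb (dent lam c a S)) / Real.log ‖σ lam‖ -
          (2 * Real.pi) ^ (d + 1) * (RM T S).det| ≤ ε := by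
  classical
  choose δ hδ hclose using fun S : Fin (d + 2) → Fin (m + 1) => pairing_close (RM T S) hε
  obtain ⟨S0, -, hS0⟩ := Finset.exists_min_image Finset.univ δ
    ⟨fun _ => 0, Finset.mem_univ _⟩
  set δ0 : ℝ := δ S0 / (m + 5) with hδ0
  have hm5 : (0 : ℝ) < m + 5 := by positivity
  have hδ0pos : 0 < δ0 := div_pos (hδ S0) hm5
  have hδle : ∀ S, (m + 4) * δ0 < δ S := by
    intro S
    have h1 := hS0 S (Finset.mem_univ S)
    have h2 : δ S0 = (m + 5) * δ0 := by
      rw [hδ0]
      field_simp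
    linarith
  have hm0 : (0 : ℝ) ≤ m := Nat.cast_nonneg m
  obtain ⟨C1, W, hC1, hWc, hWp, hWg, hWest⟩ := exists_circles
    (H := fun e w => lc σ c a (xw σ c a T w) e) hT
    (fun e => contDiff_lcw σ T e)
    (fun j w => by
      rw [lc_xw, be_T T (hdet T hT)]
      simp only [al_T T (hdet T hT)]
      simp)
    (fun e he => by
      rw [lc_xw]
      simp only [Pi.zero_apply, mul_zero, Finset.sum_const_zero, zero_add]
      exact (map_ne_zero σ).2 (be_ne hdet hgen hT he)) hδ0pos
  set G : ℝ := ∑ S : Fin (d + 2) → Fin (m + 1), ∑ i, |Real.log ‖σ (gam c S i)‖| with hG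
  have hG0 : 0 ≤ G := Finset.sum_nonneg fun S _ => Finset.sum_nonneg fun i _ => abs_nonneg _
  have hGS : ∀ S i, |Real.log ‖σ (gam c S i)‖| ≤ G := fun S i =>
    (Finset.single_le_sum (f := fun i => |Real.log ‖σ (gam c S i)‖|)
      (fun i _ => abs_nonneg _) (Finset.mem_univ i)).trans
    (Finset.single_le_sum (f := fun S => ∑ i, |Real.log ‖σ (gam c S i)‖|)
      (fun S _ => Finset.sum_nonneg fun i _ => abs_nonneg _) (Finset.mem_univ S))
  have hpi := Real.pi_pos
  set E : ℝ := 2 * Real.pi + (m + 1) * δ0 with hE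
  have hE0 : 0 < E := by positivity
  set B : ℝ := 4 + 4 * E / δ0 with hB
  have hB4 : 4 ≤ B := by
    have : 0 ≤ 4 * E / δ0 := by positivity
    rw [hB]
    linarith
  have hBE : 4 / B ^ 2 * E ≤ δ0 := by
    have h1 : 4 * E / δ0 ≤ B := by
      rw [hB]
      linarith
    rw [div_le_iff₀ hδ0pos] at h1
    rw [div_mul_eq_mul_div, div_le_iff₀ (by positivity)]
    have h2 : B * δ0 * 1 ≤ B * δ0 * B := mul_le_mul_of_nonneg_left (by linarith) (by positivity)
    nlinarith
  have hlogB : 0 ≤ Real.log B := Real.log_nonneg (by linarith)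
  set M : ℝ := (m + 1) * C1 + Real.log B + ((m + 1) * C1 + 1) / δ0 + (G + C1) / δ0 + 1 with hM
  have hM1 : 0 ≤ ((m + 1) * C1 + 1) / δ0 := by positivity
  have hM2 : 0 ≤ (G + C1) / δ0 := by positivity
  have hM3 : 0 ≤ (m + 1) * C1 := by positivity
  refine ⟨Real.exp M + 1, by linarith [Real.exp_pos M], fun lam hlam => ?_⟩
  have hln : 0 < ‖σ lam‖ := by linarith [Real.exp_pos M]
  have hl0 : σ lam ≠ 0 := norm_pos_iff.1 hln
  set s : ℝ := Real.log ‖σ lam‖ with hsdef
  have hsM : M ≤ s := by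
    rw [hsdef, Real.le_log_iff_exp_le hln]
    linarith
  have hspos : 0 < s := by linarith
  have hs0 : s ≠ 0 := hspos.ne'
  set X : (Fin (d + 1) → ℝ) → (Fin (d + 1) → ℂ) := fun θ => xw σ c a T (W θ) with hXdef
  have hXc : ContDiff ℝ 2 X := ((contDiff_xw σ T).restrict_scalars ℝ).comp hWc
  have hXp : ∀ θ i, X (θ + Pi.single i 1) = X θ := fun θ i => by
    simp only [hXdef, hWp]
  have hg : ∀ e, Good fun θ => lc σ c a (X θ) e := hWg
  have hlogH : ∀ e θ, |Real.log ‖lc σ c a (X θ) e‖| ≤ C1 := fun e θ => (hWest e θ).1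
  have hlwH : ∀ e θ j, ‖lw (fun θ => lc σ c a (X θ) e) j θ -
      2 * Real.pi * Complex.I * wT T e j‖ ≤ δ0 := fun e θ j => (hWest e θ).2 j
  -- the function `Φ`
  set F : (Fin (d + 1) → ℝ) → ℂ := fun θ => PhC σ lam c a (X θ) with hF
  have hgprod : Good fun θ => ∏ e, lc σ c a (X θ) e := good_prod Finset.univ hg
  have hFg : Good F := (good_const hl0).mul hgprod
  have hlogF : ∀ θ, |Real.log ‖F θ‖ - s| ≤ (m + 1) * C1 := by
    intro θ
    have h1 : Real.log ‖F θ‖ = s + ∑ e, Real.log ‖lc σ c a (X θ) e‖ := by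
      have h2 : ‖F θ‖ = ‖σ lam‖ * ∏ e, ‖lc σ c a (X θ) e‖ := by
        simp only [hF]
        unfold PhC
        rw [norm_mul, norm_prod]
      rw [h2, Real.log_mul hln.ne' (Finset.prod_ne_zero_iff.2 fun e _ =>
        norm_ne_zero_iff.2 ((hg e).ne_zero θ)), Real.log_prod fun e _ =>
        norm_ne_zero_iff.2 ((hg e).ne_zero θ)]
    rw [h1, add_sub_cancel_left]
    refine (Finset.abs_sum_le_sum_abs _ _).trans ?_
    refine (Finset.sum_le_sum fun e _ => hlogH e θ).trans ?_
    rw [Finset.sum_const, Finset.card_univ, Fintype.card_fin, nsmul_eq_mul]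
    push_cast
    exact le_refl _
  have hFB : ∀ θ, B ≤ ‖F θ‖ := by
    intro θ
    have h1 := abs_le.1 (hlogF θ)
    have h2 : Real.log B ≤ Real.log ‖F θ‖ := by linarith [h1.1]
    exact (Real.log_le_log_iff (by linarith) (norm_pos_iff.2 (hFg.ne_zero θ))).1 h2
  have hF4 : ∀ θ, 4 ≤ ‖F θ‖ := fun θ => hB4.trans (hFB θ)
  have hPt : ∀ θ, GPt σ lam c a (X θ) := fun θ => by
    have h1 := hF4 θ
    simp only [hF] at h1
    unfold GPt
    linarith
  have hlwF : ∀ j θ, ‖lw F j θ - 2 * Real.pi * Complex.I‖ ≤ (m + 1) * δ0 := by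
    intro j θ
    have h1 : lw F j θ = ∑ e, lw (fun θ => lc σ c a (X θ) e) j θ := by
      have h2 := lw_mul (good_const (d := d + 1) hl0) hgprod j θ
      rw [lw_const, zero_add, lw_prod Finset.univ hg] at h2
      exact h2
    have h3 : (2 * Real.pi * Complex.I : ℂ) =
        ∑ e, 2 * Real.pi * Complex.I * ((wT T e j : ℝ) : ℂ) := by
      rw [← Finset.mul_sum]
      have h4 : ∑ e, ((wT T e j : ℝ) : ℂ) = 1 := by
        rw [Finset.sum_eq_single (T j)]
        · unfold wT
          simp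
        · intro e _ he
          unfold wT
          rw [if_neg (Ne.symm he)]
          simp
        · intro h
          exact absurd (Finset.mem_univ _) h
      rw [h4, mul_one]
    rw [h1]
    conv_lhs => rw [h3]
    rw [← Finset.sum_sub_distrib]
    refine (norm_sum_le _ _).trans ?_
    refine (Finset.sum_le_sum fun e _ => hlwH e θ j).trans ?_
    rw [Finset.sum_const, Finset.card_univ, Fintype.card_fin, nsmul_eq_mul]
    push_cast
    exact le_refl _
  have hnlwF : ∀ j θ, ‖lw F j θ‖ ≤ E := by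
    intro j θ
    have h1 := norm_sub_norm_le (lw F j θ) (2 * Real.pi * Complex.I)
    have h2 : ‖(2 * Real.pi * Complex.I : ℂ)‖ = 2 * Real.pi := by
      rw [norm_mul, norm_mul, Complex.norm_I, Complex.norm_real, Complex.norm_ofNat, mul_one,
        Real.norm_eq_abs, abs_of_pos Real.pi_pos]
    have h3 := hlwF j θ
    rw [h2] at h1
    rw [hE]
    linarith
  refine ⟨mkD X hXc hXp hPt, fun θ x => (hPt θ).evA_dcst x, fun S hS => ?_⟩
  rw [Torus.reg_symb]
  set Γ := mkD X hXc hXp hPt with hΓ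
  have hγ : ∀ i, gam c S i ≠ 0 := by
    intro i
    unfold gam
    exact mul_ne_zero (pow_ne_zero _ (by norm_num)) (hdet _ (injective_face hS i))
  have hγc : ∀ i, σ (gam c S i) ≠ 0 := fun i => (map_ne_zero σ).2 (hγ i)
  have hgz : ∀ i, Γ.fn (dg lam c a S i : DOpen lam c a) =
      fun θ => σ (gam c S i) * lc σ c a (X θ) (S i) := fun i =>
    mkD_dg X hXc hXp hPt S i (hγ i)
  have hgoodZ : ∀ i, Good (Γ.fn (dg lam c a S i : DOpen lam c a)) := fun i => Γ.good _
  have hgoodE : ∀ l, Good (Γ.fn (dent lam c a S l : DOpen lam c a)) := fun l => Γ.good _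
  -- estimates for the `γ_i L_{S i}`
  have hZlog : ∀ i θ, |Real.log ‖Γ.fn (dg lam c a S i : DOpen lam c a) θ‖ / s| ≤ δ0 := by
    intro i θ
    rw [congrFun (hgz i) θ, norm_mul, Real.log_mul (norm_ne_zero_iff.2 (hγc i))
      (norm_ne_zero_iff.2 ((hg (S i)).ne_zero θ)), abs_div, abs_of_pos hspos,
      div_le_iff₀ hspos]
    have h1 := hGS S i
    have h2 := hlogH (S i) θ
    have h3 : (G + C1) / δ0 ≤ s := by linarith
    rw [div_le_iff₀ hδ0pos] at h3
    refine (abs_add_le _ _).trans ?_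
    linarith
  have hZlw : ∀ i j θ, ‖lw (Γ.fn (dg lam c a S i : DOpen lam c a)) j θ -
      2 * Real.pi * Complex.I * wT T (S i) j‖ ≤ δ0 := by
    intro i j θ
    have h1 := lw_mul (good_const (d := d + 1) (hγc i)) (hg (S i)) j θ
    rw [lw_const, zero_add] at h1
    rw [hgz i]
    have h2 : lw (fun θ => σ (gam c S i) * lc σ c a (X θ) (S i)) j θ =
      lw (fun θ => lc σ c a (X θ) (S i)) j θ := h1
    rw [h2]
    exact hlwH (S i) θ j
  have hmul : ∀ l : Fin (d + 1), (fun θ => Γ.fn (dent lam c a S l.succ : DOpen lam c a) θ *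
      Γ.fn (dg lam c a S 0 : DOpen lam c a) θ) = Γ.fn (dg lam c a S l.succ : DOpen lam c a) := by
    intro l
    funext θ
    unfold Torus.fn
    rw [← map_mul, ← Units.val_mul]
    congr 2
    show dg lam c a S l.succ / dg lam c a S 0 * dg lam c a S 0 = _
    exact div_mul_cancel _ _
  have hzfn : Γ.fn (dent lam c a S 0 : DOpen lam c a) = fun θ => F θ * hs (F θ) :=
    mkD_uz X hXc hXp hPt
  have hgh := good_hs_comp hFg hF4
  refine hclose S _ _ hs0 hgoodE (fun l θ => ?_) (fun l j θ => ?_)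
  · revert l
    refine Fin.cases ?_ (fun l => ?_)
    · have e : RM T S 0 0 = 1 := rfl
      rw [e, congrFun hzfn θ, norm_mul, Real.log_mul (norm_ne_zero_iff.2 (hFg.ne_zero θ))
        (norm_ne_zero_iff.2 (hgh.ne_zero θ))]
      have h1 := hlogF θ
      have h2 : |Real.log ‖hs (F θ)‖| ≤ 1 := by
        refine (abs_log_norm_hs (hF4 θ)).trans ?_
        rw [div_le_one (by have := hF4 θ; positivity)]
        nlinarith [hF4 θ]
      have h3 : ((m + 1) * C1 + 1) / δ0 ≤ s := by linarith
      rw [div_le_iff₀ hδ0pos] at h3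
      have h4 : (Real.log ‖F θ‖ + Real.log ‖hs (F θ)‖) / s - 1 =
          ((Real.log ‖F θ‖ - s) + Real.log ‖hs (F θ)‖) / s := by
        field_simp
        ring
      rw [h4, abs_div, abs_of_pos hspos]
      have h5 : |(Real.log ‖F θ‖ - s) + Real.log ‖hs (F θ)‖| / s ≤ δ0 := by
        rw [div_le_iff₀ hspos]
        refine (abs_add_le _ _).trans ?_
        linarith
      have h6 := hδle S
      nlinarith
    · have h1 := hZlog l.succ θ
      have h2 := hZlog 0 θ
      have h3 : Real.log ‖Γ.fn (dent lam c a S l.succ : DOpen lam c a) θ *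
          Γ.fn (dg lam c a S 0 : DOpen lam c a) θ‖ =
          Real.log ‖Γ.fn (dg lam c a S l.succ : DOpen lam c a) θ‖ :=
        congrArg (fun z : ℂ => Real.log ‖z‖) (congrFun (hmul l) θ)
      rw [norm_mul, Real.log_mul (norm_ne_zero_iff.2 ((hgoodE l.succ).ne_zero θ))
        (norm_ne_zero_iff.2 ((hgoodZ 0).ne_zero θ))] at h3
      have h4 : Real.log ‖Γ.fn (dent lam c a S l.succ : DOpen lam c a) θ‖ =
          Real.log ‖Γ.fn (dg lam c a S l.succ : DOpen lam c a) θ‖ -
          Real.log ‖Γ.fn (dg lam c a S 0 : DOpen lam c a) θ‖ := by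
        linarith
      have e : RM T S l.succ 0 = 0 := rfl
      rw [h4, sub_div, e, sub_zero]
      refine lt_of_le_of_lt ?_ (hδle S)
      have h5 := abs_le.1 h1
      have h6 := abs_le.1 h2
      have h7 : 2 * δ0 ≤ (m + 4) * δ0 := mul_le_mul_of_nonneg_right (by linarith) hδ0pos.le
      rw [abs_le]
      constructor <;> linarith [h5.1, h5.2, h6.1, h6.2]
  · revert l
    refine Fin.cases ?_ (fun l => ?_)
    · have e : RM T S 0 j.succ = 1 := rfl
      rw [e, hzfn, lw_mul hFg hgh, Complex.ofReal_one, mul_one]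
      have h1 := hlwF j θ
      have h2 : ‖lw (fun θ => hs (F θ)) j θ‖ ≤ δ0 := by
        refine (norm_lw_hs_comp hFg hF4 j θ).trans (le_trans ?_ hBE)
        refine mul_le_mul ?_ (hnlwF j θ) (norm_nonneg _) (by positivity)
        refine div_le_div_of_nonneg_left (by norm_num) (by positivity) ?_
        exact pow_le_pow_left₀ (by linarith) (hFB θ) 2
      have h3 : lw F j θ + lw (fun θ => hs (F θ)) j θ - 2 * Real.pi * Complex.I =
          (lw F j θ - 2 * Real.pi * Complex.I) + lw (fun θ => hs (F θ)) j θ := by ring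
      rw [h3]
      refine lt_of_le_of_lt ((norm_add_le _ _).trans (add_le_add h1 h2)) ?_
      have h4 := hδle S
      nlinarith
    · have h1 := hZlw l.succ j θ
      have h2 := hZlw 0 j θ
      have h3 := lw_mul (hgoodE l.succ) (hgoodZ 0) j θ
      rw [hmul l] at h3
      have h4 : lw (Γ.fn (dent lam c a S l.succ : DOpen lam c a)) j θ =
          lw (Γ.fn (dg lam c a S l.succ : DOpen lam c a)) j θ -
          lw (Γ.fn (dg lam c a S 0 : DOpen lam c a)) j θ := by
        rw [h3]
        ring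
      have e : RM T S l.succ j.succ = wT T (S l.succ) j - wT T (S 0) j := rfl
      rw [h4, e]
      refine lt_of_le_of_lt ?_ (hδle S)
      have e2 : lw (Γ.fn (dg lam c a S l.succ : DOpen lam c a)) j θ -
          lw (Γ.fn (dg lam c a S 0 : DOpen lam c a)) j θ - 2 * Real.pi * Complex.I *
            ((wT T (S l.succ) j - wT T (S 0) j : ℝ) : ℂ) =
          (lw (Γ.fn (dg lam c a S l.succ : DOpen lam c a)) j θ -
            2 * Real.pi * Complex.I * wT T (S l.succ) j) -
          (lw (Γ.fn (dg lam c a S 0 : DOpen lam c a)) j θ -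
            2 * Real.pi * Complex.I * wT T (S 0) j) := by
        push_cast
        ring
      rw [e2]
      refine (norm_sub_le _ _).trans ?_
      have h7 : 2 * δ0 ≤ (m + 4) * δ0 := mul_le_mul_of_nonneg_right (by linarith) hδ0pos.le
      linarith

theorem det_RM (t t' : {s : Finset (Fin m) // s.card = d + 1}) :
    (RM (vert t) (splx t')).det = if t = t' then 1 else 0 := by
  classical
  have h0 : ∀ j, wT (vert t) (splx t' 0) j = 0 := by
    intro j
    unfold wT
    rw [if_neg]
    exact Fin.succ_ne_zero _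
  have h1 : (RM (vert t) (splx t')).det =
      (Matrix.of fun k j => wT (vert t) (vert t' k) j :
        Matrix (Fin (d + 1)) (Fin (d + 1)) ℝ).det := by
    rw [Matrix.det_succ_column_zero, Fin.sum_univ_succ]
    have h2 : ∀ k : Fin (d + 1), RM (vert t) (splx t') k.succ 0 = 0 := fun k => rfl
    have h3 : RM (vert t) (splx t') 0 0 = 1 := rfl
    simp only [h2, h3, mul_zero, zero_mul, Finset.sum_const_zero, add_zero, Fin.val_zero,
      pow_zero, mul_one, one_mul]
    congr 1
    ext k j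
    rw [Matrix.submatrix_apply, Fin.succAbove_zero]
    show wT (vert t) (splx t' k.succ) j - wT (vert t) (splx t' 0) j = _
    rw [h0, sub_zero]
    rfl
  rw [h1]
  by_cases h : t = t'
  · subst h
    rw [if_pos rfl]
    have h2 : (Matrix.of fun k j => wT (vert t) (vert t k) j :
        Matrix (Fin (d + 1)) (Fin (d + 1)) ℝ) = 1 := by
      ext k j
      rw [Matrix.of_apply, Matrix.one_apply]
      unfold wT
      by_cases hkj : k = j
      · rw [if_pos hkj, if_pos (by rw [hkj])]
      · rw [if_neg hkj, if_neg fun e => hkj (vert_injective t e).symm]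
    rw [h2, Matrix.det_one]
  · rw [if_neg h]
    obtain ⟨x, hx', hx⟩ : ∃ x ∈ t'.1, x ∉ t.1 := by
      by_contra hcon
      push Not at hcon
      apply h
      apply Subtype.ext
      exact (Finset.eq_of_subset_of_card_le (fun x hx => hcon x hx) (by rw [t.2, t'.2])).symm
    have h2 : x ∈ Set.range (t'.1.orderEmbOfFin t'.2) := by
      rw [Finset.range_orderEmbOfFin]
      exact hx'
    obtain ⟨k, hk⟩ := h2
    refine Matrix.det_eq_zero_of_row_eq_zero k fun j => ?_
    rw [Matrix.of_apply]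
    unfold wT
    rw [if_neg]
    intro e
    apply hx
    have h3 : (t.1.orderEmbOfFin t.2 j).succ = (t'.1.orderEmbOfFin t'.2 k).succ := e
    rw [hk] at h3
    have h4 := Fin.succ_injective _ h3
    rw [← h4]
    exact Finset.orderEmbOfFin_mem _ _ _

theorem exists_tori (σ : K →+* ℂ)
    (hdet : ∀ T : Fin (d + 1) → Fin (m + 1), Function.Injective T → (cm c T).det ≠ 0)
    (hgen : ∀ S : Fin (d + 2) → Fin (m + 1), Function.Injective S → ∀ x : Fin (d + 1) → K,
      ∃ i, ∑ j, c (S i) j * x j ≠ a (S i)) :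
    ∃ C : ℝ, 1 ≤ C ∧ ∀ lam : K, C ≤ ‖σ lam‖ →
      ∃ Γ : {s : Finset (Fin m) // s.card = d + 1} → Torus (DOpen lam c a) (d + 1),
        (∀ t θ x, (Γ t).e θ (dcst lam c a x) = σ x) ∧
        (Matrix.of fun t i : {s : Finset (Fin m) // s.card = d + 1} =>
          (Γ t).reg (symb (dent lam c a (splx i)))).det ≠ 0 := by
  classical
  set D0 : ℝ := (2 * Real.pi) ^ (d + 1) with hD0
  have hD : D0 ≠ 0 := by
    have := Real.pi_pos
    positivity
  have hlead : (D0 • (1 : Matrix {s : Finset (Fin m) // s.card = d + 1}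
      {s : Finset (Fin m) // s.card = d + 1} ℝ)).det ≠ 0 := by
    rw [Matrix.det_smul, Matrix.det_one, mul_one]
    exact pow_ne_zero _ hD
  obtain ⟨δ, hδ, hdet'⟩ := det_ne_zero_near _ hlead
  choose Λ hΛ1 hΛ using fun t : {s : Finset (Fin m) // s.card = d + 1} =>
    exists_torus (a := a) σ hdet hgen (vert_injective t) (ε := δ / 2) (by linarith)
  set C : ℝ := ∑ t, |Λ t| + 2 with hC
  have hsum : 0 ≤ ∑ t, |Λ t| := Finset.sum_nonneg fun J _ => abs_nonneg _
  have hΛC : ∀ t, Λ t ≤ C := by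
    intro t
    have h1 := Finset.single_le_sum (f := fun t => |Λ t|) (fun t _ => abs_nonneg _)
      (Finset.mem_univ t)
    have h2 := le_abs_self (Λ t)
    have h3 : |Λ t| ≤ ∑ t, |Λ t| := h1
    linarith
  refine ⟨C, by linarith, fun lam hlam => ?_⟩
  choose Γ hΓ1 hΓ2 using fun t => hΛ t lam ((hΛC t).trans hlam)
  refine ⟨Γ, hΓ1, ?_⟩
  have hs : Real.log ‖σ lam‖ ≠ 0 := by
    have : 0 < Real.log ‖σ lam‖ := Real.log_pos (by linarith)
    linarith
  set s : ℝ := Real.log ‖σ lam‖ with hsdef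
  have h1 : (Matrix.of fun t i : {s : Finset (Fin m) // s.card = d + 1} =>
      (Γ t).reg (symb (dent lam c a (splx i))) / s).det ≠ 0 := by
    refine hdet' _ fun t i => ?_
    rw [Matrix.of_apply, Matrix.smul_apply, Matrix.one_apply, smul_eq_mul]
    refine lt_of_le_of_lt ?_ (show δ / 2 < δ by linarith)
    have h2 := hΓ2 t (splx i) (splx_injective i)
    rwa [det_RM] at h2
  have h2 : (Matrix.of fun t i : {s : Finset (Fin m) // s.card = d + 1} =>
      (Γ t).reg (symb (dent lam c a (splx i)))) =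
      s • (Matrix.of fun t i : {s : Finset (Fin m) // s.card = d + 1} =>
        (Γ t).reg (symb (dent lam c a (splx i))) / s) := by
    ext t i
    rw [Matrix.smul_apply, Matrix.of_apply, Matrix.of_apply, smul_eq_mul]
    field_simp
  rw [h2, Matrix.det_smul]
  exact mul_ne_zero (pow_ne_zero _ hs) h1

end main

end Pool.Agent.TH826.DC
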