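import Pool.Agent.TH826.DC.Ring
import Pool.Agent.TH826.MK.Eval
set_option autoImplicit false

/-!
Smoothness, evaluation of functions at complex points, and tori with `z` the large root of
`z² - Φ z + 1`.
-/

namespace Pool.Agent.TH826.DC

open Pool.Agent.TH826.MK

open Pool.Agent.TH826.GA

section smooth

variable {K : Type*} [Field K] {d m : ℕ} {c : Fin (m + 1) → Fin (d + 1) → K}
  {a : Fin (m + 1) → K}

theorem eval_dPhi (σ : K →+* ℂ) (lam : K) (x : Fin (d + 1) → ℂ) :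
    MvPolynomial.eval₂ σ x (dPhi lam c a) = σ lam * ∏ e, lc σ c a x e := by
  unfold dPhi
  rw [MvPolynomial.eval₂_mul, MvPolynomial.eval₂_C, MvPolynomial.eval₂_prod]
  simp only [eval_lf]

theorem exists_smooth (σ : K →+* ℂ)
    (hdet : ∀ T : Fin (d + 1) → Fin (m + 1), Function.Injective T → (cm c T).det ≠ 0)
    (hgen : ∀ S : Fin (d + 2) → Fin (m + 1), Function.Injective S → ∀ x : Fin (d + 1) → K,
      ∃ i, ∑ j, c (S i) j * x j ≠ a (S i)) (hm : d + 1 ≤ m) :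
    ∃ C : ℝ, ∀ lam : K, C ≤ ‖σ lam‖ → ∀ (x : Fin (d + 1) → ℂ) (z : ℂ),
      z ^ 2 - MvPolynomial.eval₂ σ x (dPhi lam c a) * z + 1 = 0 →
      2 * z - MvPolynomial.eval₂ σ x (dPhi lam c a) ≠ 0 ∨
      ∃ j, MvPolynomial.eval₂ σ x (MvPolynomial.pderiv j (dPhi lam c a)) * z ≠ 0 := by
  obtain ⟨C, hC⟩ := GA.exists_smooth σ hdet hgen hm
  refine ⟨2 * C, fun lam hlam x z hz => ?_⟩
  by_contra hcon
  push Not at hcon
  obtain ⟨h1, h2⟩ := hcon
  have hz2 : z ^ 2 = 1 := by linear_combination (-1 : ℂ) * hz + z * h1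
  have hz0 : z ≠ 0 := by
    rintro rfl
    norm_num at hz2
  have hPhi : MvPolynomial.eval₂ σ x (dPhi lam c a) = 2 * z := by linear_combination -h1
  rw [eval_dPhi] at hPhi
  have key : ∀ μ : K, ‖σ μ‖ = ‖σ lam‖ / 2 → (∃ ν : K, μ = ν * lam) →
      σ μ * ∏ e, lc σ c a x e = 1 → False := by
    rintro μ hμ ⟨ν, hν⟩ h3
    obtain ⟨j, hj⟩ := hC μ (by rw [hμ]; linarith) x (by rw [eval_geqn, h3, sub_self])
    apply hj
    have h4 := h2 j
    rw [mul_eq_zero, or_iff_left hz0] at h4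
    unfold dPhi at h4
    unfold geqn
    rw [MvPolynomial.pderiv_C_mul, MvPolynomial.eval₂_mul, MvPolynomial.eval₂_C] at h4
    rw [map_sub, MvPolynomial.pderiv_one, sub_zero, MvPolynomial.pderiv_C_mul,
      MvPolynomial.eval₂_mul, MvPolynomial.eval₂_C, hν, map_mul, mul_assoc, h4, mul_zero]
  have hz3 : z = 1 ∨ z = -1 := by
    have : (z - 1) * (z + 1) = 0 := by linear_combination hz2
    rcases mul_eq_zero.1 this with h | h
    · left; linear_combination h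
    · right; linear_combination h
  have h2K : σ (2⁻¹) = 2⁻¹ := by rw [map_inv₀, map_ofNat]
  rcases hz3 with rfl | rfl
  · refine key (2⁻¹ * lam) ?_ ⟨2⁻¹, rfl⟩ ?_
    · rw [map_mul, norm_mul, h2K, norm_inv, Complex.norm_ofNat]
      ring
    · rw [map_mul, h2K]
      linear_combination (2⁻¹ : ℂ) * hPhi
  · refine key (-2⁻¹ * lam) ?_ ⟨-2⁻¹, rfl⟩ ?_
    · rw [map_mul, norm_mul, map_neg, h2K, norm_neg, norm_inv, Complex.norm_ofNat]
      ring
    · rw [map_mul, map_neg, h2K]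
      linear_combination (-2⁻¹ : ℂ) * hPhi

end smooth

section Ev

variable {K : Type*} [Field K] {d n m : ℕ} {σ : K →+* ℂ} {lam : K}
  {c : Fin (m + 1) → Fin (d + 1) → K} {a : Fin (m + 1) → K}

/-- the value of `Φ` at a complex point -/
noncomputable def PhC (σ : K →+* ℂ) (lam : K) (c : Fin (m + 1) → Fin (d + 1) → K)
    (a : Fin (m + 1) → K) (x : Fin (d + 1) → ℂ) : ℂ := σ lam * ∏ e, lc σ c a x e

/-- Points at which the large root is defined. -/
def GPt (σ : K →+* ℂ) (lam : K) (c : Fin (m + 1) → Fin (d + 1) → K) (a : Fin (m + 1) → K)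
    (x : Fin (d + 1) → ℂ) : Prop := 2 < ‖PhC σ lam c a x‖

theorem GPt.eval_deqn {x : Fin (d + 1) → ℂ} (hx : GPt σ lam c a x) :
    Polynomial.eval₂ (MvPolynomial.eval₂Hom σ x) (zeta (PhC σ lam c a x)) (deqn lam c a) = 0 := by
  unfold deqn
  simp only [Polynomial.eval₂_add, Polynomial.eval₂_sub, Polynomial.eval₂_mul,
    Polynomial.eval₂_pow, Polynomial.eval₂_X, Polynomial.eval₂_C, Polynomial.eval₂_one]
  have e : MvPolynomial.eval₂Hom σ x (dPhi lam c a) = PhC σ lam c a x := eval_dPhi σ lam x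
  rw [e]
  exact zeta_eq hx

/-- evaluation of the regular functions on the hypersurface -/
noncomputable def GPt.evB {x : Fin (d + 1) → ℂ} (hx : GPt σ lam c a x) : DRing lam c a →+* ℂ :=
  AdjoinRoot.lift (MvPolynomial.eval₂Hom σ x) (zeta (PhC σ lam c a x)) hx.eval_deqn

theorem GPt.evB_dpol {x : Fin (d + 1) → ℂ} (hx : GPt σ lam c a x)
    (p : MvPolynomial (Fin (d + 1)) K) :
    hx.evB (dpol lam c a p) = MvPolynomial.eval₂Hom σ x p :=
  AdjoinRoot.lift_of hx.eval_deqn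

theorem GPt.evB_mk {x : Fin (d + 1) → ℂ} (hx : GPt σ lam c a x)
    (p : Polynomial (MvPolynomial (Fin (d + 1)) K)) :
    hx.evB (AdjoinRoot.mk (deqn lam c a) p : AdjoinRoot (deqn lam c a)) =
      p.eval₂ (MvPolynomial.eval₂Hom σ x) (zeta (PhC σ lam c a x)) :=
  AdjoinRoot.lift_mk hx.eval_deqn p

theorem GPt.evB_dz {x : Fin (d + 1) → ℂ} (hx : GPt σ lam c a x) :
    hx.evB (dz lam c a) = zeta (PhC σ lam c a x) :=
  AdjoinRoot.lift_root hx.eval_deqn

theorem GPt.evB_ne {x : Fin (d + 1) → ℂ} (hx : GPt σ lam c a x) :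
    hx.evB (dpol lam c a (dPhi lam c a)) ≠ 0 := by
  rw [hx.evB_dpol]
  have e : MvPolynomial.eval₂Hom σ x (dPhi lam c a) = PhC σ lam c a x := eval_dPhi σ lam x
  rw [e]
  intro h
  unfold GPt at hx
  rw [h, norm_zero] at hx
  linarith

/-- evaluation of the regular functions on the open part -/
noncomputable def GPt.evA {x : Fin (d + 1) → ℂ} (hx : GPt σ lam c a x) : DOpen lam c a →+* ℂ :=
  liftD hx.evB hx.evB_ne

theorem GPt.evA_toD {x : Fin (d + 1) → ℂ} (hx : GPt σ lam c a x) (b : DRing lam c a) :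
    hx.evA (toD lam c a b) = hx.evB b :=
  liftD_toD _ _ _

theorem GPt.evA_congr {x y : Fin (d + 1) → ℂ} (hx : GPt σ lam c a x) (hy : GPt σ lam c a y)
    (h : x = y) : hx.evA = hy.evA := by
  subst h
  rfl

theorem GPt.evA_dcst {x : Fin (d + 1) → ℂ} (hx : GPt σ lam c a x) (y : K) :
    hx.evA (dcst lam c a y) = σ y := by
  show hx.evA (toD lam c a (dpol lam c a (MvPolynomial.C y))) = _
  rw [hx.evA_toD, hx.evB_dpol]
  simp

theorem GPt.evA_uz {x : Fin (d + 1) → ℂ} (hx : GPt σ lam c a x) :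
    hx.evA (uz lam c a : DOpen lam c a) = zeta (PhC σ lam c a x) := by
  rw [coe_uz, hx.evA_toD, hx.evB_dz]

theorem GPt.evA_du {x : Fin (d + 1) → ℂ} (hx : GPt σ lam c a x) (e : Fin (m + 1)) :
    hx.evA (du lam c a e : DOpen lam c a) = lc σ c a x e := by
  rw [coe_du, hx.evA_toD, hx.evB_dpol]
  exact eval_lf σ x e

theorem contDiff_evA {x : (Fin n → ℝ) → (Fin (d + 1) → ℂ)} (hc : ContDiff ℝ 2 x)
    (hx : ∀ θ, GPt σ lam c a (x θ)) (h : DOpen lam c a) :
    ContDiff ℝ 2 fun θ => (hx θ).evA h := by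
  have hxk : ∀ k, ContDiff ℝ 2 fun θ => x θ k := fun k => contDiff_pi.1 hc k
  have hmv : ∀ p : MvPolynomial (Fin (d + 1)) K,
      ContDiff ℝ 2 fun θ => MvPolynomial.eval₂Hom σ (x θ) p := by
    intro p
    induction p using MvPolynomial.induction_on with
    | C c => simpa using contDiff_const
    | add p q hp hq => simpa using hp.add hq
    | mul_X p k hp => simpa using hp.mul (hxk k)
  have hPhi : ContDiff ℝ 2 fun θ => PhC σ lam c a (x θ) := by
    have := hmv (dPhi lam c a)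
    have e : (fun θ => MvPolynomial.eval₂Hom σ (x θ) (dPhi lam c a)) =
        fun θ => PhC σ lam c a (x θ) := funext fun θ => eval_dPhi σ lam (x θ)
    rwa [e] at this
  have hz : ContDiff ℝ 2 fun θ => zeta (PhC σ lam c a (x θ)) := by
    rw [contDiff_iff_contDiffAt]
    intro θ
    exact ((contDiffAt_zeta (hx θ)).restrict_scalars ℝ).comp θ hPhi.contDiffAt
  have hB : ∀ b : DRing lam c a, ContDiff ℝ 2 fun θ => (hx θ).evB b := by
    intro b
    obtain ⟨p, hp⟩ := AdjoinRoot.mk_surjective (g := deqn lam c a) b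
    have e : (fun θ => (hx θ).evB b) = fun θ =>
        ∑ i ∈ Finset.range (p.natDegree + 1), MvPolynomial.eval₂Hom σ (x θ) (p.coeff i) *
          (zeta (PhC σ lam c a (x θ))) ^ i := by
      funext θ
      rw [← hp, (hx θ).evB_mk, Polynomial.eval₂_eq_sum_range]
    rw [e]
    exact ContDiff.sum fun i _ => (hmv _).mul (hz.pow i)
  obtain ⟨p, hp⟩ := AdjoinRoot.mk_surjective (g := deqnO lam c a) h
  have e : (fun θ => (hx θ).evA h) = fun θ =>
      ∑ i ∈ Finset.range (p.natDegree + 1), (hx θ).evB (p.coeff i) *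
        ((hx θ).evB (dpol lam c a (dPhi lam c a)))⁻¹ ^ i := by
    funext θ
    rw [← hp]
    unfold GPt.evA
    rw [liftD_mk, Polynomial.eval₂_eq_sum_range]
  rw [e]
  exact ContDiff.sum fun i _ => (hB _).mul
    (((hB _).inv fun θ => (hx θ).evB_ne).pow i)

/-- a torus in the hypersurface -/
noncomputable def mkD (x : (Fin n → ℝ) → (Fin (d + 1) → ℂ)) (hc : ContDiff ℝ 2 x)
    (hp : ∀ θ i, x (θ + Pi.single i 1) = x θ)
    (hx : ∀ θ, GPt σ lam c a (x θ)) : Torus (DOpen lam c a) n where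
  e θ := (hx θ).evA
  smooth h := contDiff_evA hc hx h
  periodic θ i := GPt.evA_congr _ _ (hp θ i)

theorem mkD_dg (x : (Fin n → ℝ) → (Fin (d + 1) → ℂ)) (hc : ContDiff ℝ 2 x)
    (hp : ∀ θ i, x (θ + Pi.single i 1) = x θ) (hx : ∀ θ, GPt σ lam c a (x θ))
    (S : Fin (d + 2) → Fin (m + 1)) (i : Fin (d + 2)) (hγ : gam c S i ≠ 0) :
    (mkD x hc hp hx).fn (dg lam c a S i : DOpen lam c a) =
      fun θ => σ (gam c S i) * lc σ c a (x θ) (S i) := by
  funext θ
  show (hx θ).evA (dg lam c a S i : DOpen lam c a) = _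
  unfold dg
  rw [Units.val_mul, map_mul, GPt.evA_du, Units.coe_map]
  congr 1
  show (hx θ).evA (dcst lam c a (ku (gam c S i) : K)) = _
  rw [GPt.evA_dcst, coe_ku hγ]

theorem mkD_uz (x : (Fin n → ℝ) → (Fin (d + 1) → ℂ)) (hc : ContDiff ℝ 2 x)
    (hp : ∀ θ i, x (θ + Pi.single i 1) = x θ) (hx : ∀ θ, GPt σ lam c a (x θ)) :
    (mkD x hc hp hx).fn (uz lam c a : DOpen lam c a) =
      fun θ => zeta (PhC σ lam c a (x θ)) := by
  funext θ
  exact (hx θ).evA_uz

end Ev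

section hs

variable {n : ℕ} {F : (Fin n → ℝ) → ℂ}

theorem good_hs_comp (hF : Good F) (h4 : ∀ θ, 4 ≤ ‖F θ‖) : Good fun θ => hs (F θ) := by
  refine ⟨?_, fun θ => ?_⟩
  · rw [contDiff_iff_contDiffAt]
    intro θ
    exact ((contDiffAt_hs (by linarith [h4 θ])).restrict_scalars ℝ).comp θ
      hF.smooth.contDiffAt
  · unfold hs
    refine div_ne_zero ?_ two_ne_zero
    intro h
    have := norm_one_add_sq_ge (h4 θ)
    rw [h, norm_zero] at this
    linarith

theorem lw_hs_comp (hF : Good F) (h4 : ∀ θ, 4 ≤ ‖F θ‖) (j : Fin n) (θ : Fin n → ℝ) :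
    lw (fun θ => hs (F θ)) j θ =
      4 / (F θ ^ 2 * (MK.sq (F θ) * (1 + MK.sq (F θ)))) * lw F j θ := by
  have h1 : HasFDerivAt F (fderiv ℝ F θ) θ :=
    ((hF.smooth.differentiable (by norm_num)) θ).hasFDerivAt
  have h2 := (hasDerivAt_hs (h4 θ)).comp_hasFDerivAt θ h1
  have h3 : fderiv ℝ (fun θ => hs (F θ)) θ = _ := h2.fderiv
  have h5 := (good_hs_comp hF h4).ne_zero θ
  have h6 := hF.ne_zero θ
  have h7 : MK.sq (F θ) ≠ 0 := Complex.exp_ne_zero _
  have h8 : 1 + MK.sq (F θ) ≠ 0 := by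
    intro h
    have := norm_one_add_sq_ge (h4 θ)
    rw [h, norm_zero] at this
    linarith
  have h9 : hs (F θ) ≠ 0 := h5
  unfold lw
  rw [h3]
  simp only [smul_apply, smul_eq_mul]
  field_simp

theorem norm_lw_hs_comp (hF : Good F) (h4 : ∀ θ, 4 ≤ ‖F θ‖) (j : Fin n) (θ : Fin n → ℝ) :
    ‖lw (fun θ => hs (F θ)) j θ‖ ≤ 4 / ‖F θ‖ ^ 2 * ‖lw F j θ‖ := by
  rw [lw_hs_comp hF h4, norm_mul]
  refine mul_le_mul_of_nonneg_right ?_ (norm_nonneg _)
  rw [norm_div, norm_mul, norm_mul, norm_pow, Complex.norm_ofNat]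
  have h0 : 0 < ‖F θ‖ := by linarith [h4 θ]
  have h6 := norm_sq_ge (h4 θ)
  have h7 := norm_one_add_sq_ge (h4 θ)
  have h5 : 1 ≤ ‖MK.sq (F θ)‖ * ‖1 + MK.sq (F θ)‖ := by nlinarith
  refine div_le_div_of_nonneg_left (by norm_num) (by positivity) ?_
  calc ‖F θ‖ ^ 2 = ‖F θ‖ ^ 2 * 1 := (mul_one _).symm
    _ ≤ _ := mul_le_mul_of_nonneg_left h5 (by positivity)

end hs

end Pool.Agent.TH826.DC
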