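import Pool.Agent.TH826.SX.Milnor
set_option autoImplicit false

/-!
Multiplication of symbols by an element, and symbols `{x, z_1/z_0, ..., z_n/z_0}` with the sum of the
`z_k` of smaller order.
-/

namespace Pool.Agent.TH826.DC

open scoped WithZero

open Pool.Agent.TH826.MK

open Pool.Agent.TH826.SX

section cup

variable {L : Type*} [Field L] {n : ℕ}

/-- Multiplication by `x` from the left. -/
noncomputable def cup (x : Lˣ) : KQ L n →ₗ[ℚ] KQ L (n + 1) :=
  KQ.lift (fun a => symb (Fin.cons x a : Fin (n + 1) → Lˣ)) (by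
    intro a i y z
    have e : ∀ w : Lˣ, (Fin.cons x (Function.update a i w) : Fin (n + 1) → Lˣ) =
        Function.update (Fin.cons x a : Fin (n + 1) → Lˣ) i.succ w := by
      intro w
      funext j
      refine Fin.cases ?_ (fun j => ?_) j
      · rw [Function.update_of_ne (Fin.succ_ne_zero i).symm, Fin.cons_zero, Fin.cons_zero]
      · rw [Fin.cons_succ]
        by_cases h : j = i
        · subst h
          rw [Function.update_self, Function.update_self]
        · rw [Function.update_of_ne h, Function.update_of_ne fun e => h (Fin.succ_injective _ e),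
            Fin.cons_succ]
    rw [e, e, e, symb_update_mul]) (by
    rintro a ⟨i, j, hij, h⟩
    refine symb_eq_zero _ ⟨i.succ, j.succ, Fin.succ_lt_succ_iff.2 hij, ?_⟩
    rw [Fin.cons_succ, Fin.cons_succ]
    exact h)

theorem cup_symb (x : Lˣ) (a : Fin n → Lˣ) :
    cup x (symb a) = symb (Fin.cons x a : Fin (n + 1) → Lˣ) := by
  unfold cup
  rw [KQ.lift_symb]

/-- A symbol `{x, a_1, ..., a_n}`, the `a_k` integral with sum congruent to `-1`, lies in the unit
part. -/
theorem cons_mem_unitPart_of_sum (v : Valuation L ℤᵐ⁰) (x : Lˣ) (a : Fin n → Lˣ)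
    (h1 : ∀ k, v (a k : L) ≤ 1) (h : v (1 + ∑ k, (a k : L)) < 1) :
    symb (Fin.cons x a : Fin (n + 1) → Lˣ) ∈ unitPart v (n + 1) := by
  classical
  set T : Finset (Fin n) := Finset.univ.filter fun k => v (a k : L) = 1 with hT
  have hrest : v (∑ k ∈ Finset.univ.filter (fun k => ¬ v (a k : L) = 1), (a k : L)) < 1 := by
    refine Valuation.map_sum_lt v one_ne_zero fun k hk => ?_
    exact lt_of_le_of_ne (h1 k) (Finset.mem_filter.1 hk).2
  have hTsum : v (1 + ∑ k ∈ T, (a k : L)) < 1 := by
    have e : 1 + ∑ k ∈ T, (a k : L) = (1 + ∑ k, (a k : L)) -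
        ∑ k ∈ Finset.univ.filter (fun k => ¬ v (a k : L) = 1), (a k : L) := by
      rw [← Finset.sum_filter_add_sum_filter_not Finset.univ (fun k => v (a k : L) = 1)]
      ring
    rw [e]
    exact (v.map_sub _ _).trans_lt (max_lt h hrest)
  have hne : T.Nonempty := by
    by_contra hcon
    rw [Finset.not_nonempty_iff_eq_empty] at hcon
    rw [hcon, Finset.sum_empty, add_zero, map_one] at hTsum
    exact lt_irrefl _ hTsum
  obtain ⟨t, ht⟩ := hne
  have hvt : v (a t : L) = 1 := (Finset.mem_filter.1 ht).2
  set e : L := -1 - ∑ k ∈ T.erase t, (a k : L) with he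
  have hsub : (a t : L) - e = 1 + ∑ k ∈ T, (a k : L) := by
    rw [he, ← Finset.add_sum_erase T _ ht]
    ring
  have hve : v e = 1 := by
    have e1 : e = a t - ((a t : L) - e) := by ring
    rw [e1, hsub, ← hvt]
    refine Valuation.map_sub_eq_of_lt_left v ?_
    rw [hvt]
    exact hTsum
  have he0 : e ≠ 0 := by
    intro h0
    rw [h0, map_zero] at hve
    exact zero_ne_one hve
  set e' : Lˣ := Units.mk0 e he0 with he'
  have hq : a t = e' * (a t / e') := by rw [mul_div_cancel]
  have h2 : symb a = symb (Function.update a t e') + symb (Function.update a t (a t / e')) := by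
    rw [← symb_update_mul, ← hq, Function.update_eq_self]
  have h3 : symb (Function.update a t e') = 0 := by
    rw [symb_eq_zero_of_sum_neg T]
    rw [← Finset.add_sum_erase T _ ht, Function.update_self,
      Finset.sum_congr rfl fun k hk => by rw [Function.update_of_ne (Finset.ne_of_mem_erase hk)],
      he', Units.val_mk0, he]
    ring
  rw [h3, zero_add] at h2
  rw [← cup_symb, h2, cup_symb]
  refine mem_unitPart_of_oneUnit' v t.succ _ ?_
  rw [Fin.cons_succ, Function.update_self, Units.val_div_eq_div_val, he', Units.val_mk0,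
    div_sub_one he0, map_div₀, hve, div_one, hsub]
  exact hTsum

/-- The symbols `{x, z_1/z_0, ..., z_n/z_0}` lie in the unit part, if the sum of the `z_k` is of
smaller order than the largest `z_k`. -/
theorem cons_mem_unitPart_of_sum_lt (v : Valuation L ℤᵐ⁰) (x : Lˣ) (z : Fin (n + 1) → Lˣ)
    (l : Fin (n + 1)) (hl : ∀ k, v (z k : L) ≤ v (z l : L))
    (h : v (∑ k, (z k : L)) < v (z l : L)) :
    symb (Fin.cons x (fun k : Fin n => z k.succ / z 0) : Fin (n + 1) → Lˣ) ∈
      unitPart v (n + 1) := by
  have hdiv : ∀ k j, ((z k / z j : Lˣ) : L) = (z k : L) / (z j : L) := fun k j =>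
    Units.val_div_eq_div_val _ _
  have hl0 : (z l : L) ≠ 0 := (z l).ne_zero
  have hvl0 : 0 < v (z l : L) := by
    rw [Valuation.pos_iff]
    exact hl0
  have hle : ∀ k, v ((z k : L) / z l) ≤ 1 := by
    intro k
    rw [map_div₀, div_le_one₀ hvl0]
    exact hl k
  have hlt : v ((∑ k, (z k : L)) / z l) < 1 := by
    rw [map_div₀, div_lt_one₀ hvl0]
    exact h
  revert hl0 hvl0 hle hlt
  refine Fin.cases ?_ (fun l => ?_) l
  · intro hl0 hvl0 hle hlt
    refine cons_mem_unitPart_of_sum v x _ (fun k => ?_) ?_
    · rw [hdiv]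
      exact hle _
    · simp only [hdiv]
      have e : 1 + ∑ k : Fin n, (z k.succ : L) / z 0 = (∑ k, (z k : L)) / z 0 := by
        rw [Fin.sum_univ_succ, add_div, Finset.sum_div, div_self hl0]
      rw [e]
      exact hlt
  · intro hl0 hvl0 hle hlt
    rw [← cup_symb, symb_swap z l, map_neg, cup_symb]
    refine Submodule.neg_mem _ (cons_mem_unitPart_of_sum v x _ (fun k => ?_) ?_)
    · by_cases hk : k = l
      · rw [if_pos hk, hdiv]; exact hle _
      · rw [if_neg hk, hdiv]; exact hle _
    · have e : 1 + ∑ k : Fin n, ((if k = l then z 0 / z l.succ else z k.succ / z l.succ : Lˣ) : L) =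
          (∑ k, (z k : L)) / z l.succ := by
        rw [Fin.sum_univ_succ, ← Finset.add_sum_erase _ _ (Finset.mem_univ l),
          ← Finset.add_sum_erase Finset.univ (fun k : Fin n => (z k.succ : L))
            (Finset.mem_univ l), if_pos rfl,
          Finset.sum_congr rfl fun k hk => by rw [if_neg (Finset.ne_of_mem_erase hk), hdiv],
          ← Finset.sum_div, hdiv]
        field_simp
        ring
      rw [e]
      exact hlt

end cup

end Pool.Agent.TH826.DC
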