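import Pool.Agent.TH826.GA.Smooth
import Pool.Agent.TH826.MK.Variety
import Pool.Agent.TH826.DC.Cup
set_option autoImplicit false

/-!
The double covers `z + 1/z = λ ∏_e L_e` of the affine space and the symbols
`{z, γ_1 L_{S 1}/(γ_0 L_{S 0}), ..., γ_n L_{S n}/(γ_0 L_{S 0})}`.
-/

namespace Pool.Agent.TH826.DC

open scoped WithZero

open Pool.Agent.TH826.MK (KQ symb Unramified unitPart)

open Pool.Agent.TH826.GA

section Ring

variable {K : Type*} [Field K] {d m : ℕ} (lam : K) (c : Fin (m + 1) → Fin (d + 1) → K)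
  (a : Fin (m + 1) → K)

/-- The polynomial `Φ = λ ∏_e L_e`. -/
noncomputable def dPhi : MvPolynomial (Fin (d + 1)) K := MvPolynomial.C lam * ∏ e, lf c a e

/-- The polynomial `z² - Φ z + 1`. -/
noncomputable def deqn : Polynomial (MvPolynomial (Fin (d + 1)) K) :=
  Polynomial.X ^ 2 - Polynomial.C (dPhi lam c a) * Polynomial.X + 1

/-- The coordinate ring of the hypersurface `z² - Φ z + 1 = 0` in the affine space with
coordinates `x_0, ..., x_d, z`. -/
def DRing : Type _ := AdjoinRoot (deqn lam c a)

noncomputable instance : CommRing (DRing lam c a) := AdjoinRoot.instCommRing (deqn lam c a)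

/-- The polynomials in `x_0, ..., x_d` as functions on the hypersurface. -/
noncomputable def dpol : MvPolynomial (Fin (d + 1)) K →+* DRing lam c a :=
  AdjoinRoot.of (deqn lam c a)

/-- The function `z`. -/
noncomputable def dz : DRing lam c a := AdjoinRoot.root (deqn lam c a)

/-- The polynomial `Φ T - 1`. -/
noncomputable def deqnO : Polynomial (DRing lam c a) :=
  Polynomial.C (dpol lam c a (dPhi lam c a)) * Polynomial.X - 1

/-- The coordinate ring of the open part `Φ ≠ 0` of the hypersurface: the ring obtained from the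
coordinate ring of the hypersurface by adjoining `T` with `Φ T = 1`. -/
def DOpen : Type _ := AdjoinRoot (deqnO lam c a)

noncomputable instance : CommRing (DOpen lam c a) := AdjoinRoot.instCommRing (deqnO lam c a)

/-- The restriction of functions to the open part. -/
noncomputable def toD : DRing lam c a →+* DOpen lam c a := AdjoinRoot.of (deqnO lam c a)

/-- The constants. -/
noncomputable def dcst : K →+* DOpen lam c a :=
  (toD lam c a).comp ((dpol lam c a).comp MvPolynomial.C)

theorem dz_eq : dz lam c a ^ 2 - dpol lam c a (dPhi lam c a) * dz lam c a + 1 = 0 := by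
  have h := AdjoinRoot.mk_self (f := deqn lam c a)
  have h2 : AdjoinRoot.mk (deqn lam c a) (deqn lam c a) = AdjoinRoot.root (deqn lam c a) ^ 2 -
      AdjoinRoot.of _ (dPhi lam c a) * AdjoinRoot.root (deqn lam c a) + 1 := by
    conv_lhs => rw [show AdjoinRoot.mk (deqn lam c a) (deqn lam c a) =
      AdjoinRoot.mk (deqn lam c a)
      (Polynomial.X ^ 2 - Polynomial.C (dPhi lam c a) * Polynomial.X + 1) from rfl]
    rw [map_add, map_sub, map_mul, map_pow, map_one, AdjoinRoot.mk_X, AdjoinRoot.mk_C]
  rw [h2] at h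
  exact h

theorem isUnit_dPhi : IsUnit (toD lam c a (dpol lam c a (dPhi lam c a))) := by
  have h := AdjoinRoot.mk_self (f := deqnO lam c a)
  have h2 : AdjoinRoot.mk (deqnO lam c a) (deqnO lam c a) =
      AdjoinRoot.of (deqnO lam c a) (dpol lam c a (dPhi lam c a)) *
      AdjoinRoot.root (deqnO lam c a) - 1 := by
    conv_lhs => rw [show AdjoinRoot.mk (deqnO lam c a) (deqnO lam c a) =
      AdjoinRoot.mk (deqnO lam c a)
      (Polynomial.C (dpol lam c a (dPhi lam c a)) * Polynomial.X - 1) from rfl]
    rw [map_sub, map_mul, map_one, AdjoinRoot.mk_X, AdjoinRoot.mk_C]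
  rw [h2, sub_eq_zero] at h
  exact IsUnit.of_mul_eq_one _ h

theorem isUnit_dl (e : Fin (m + 1)) : IsUnit (toD lam c a (dpol lam c a (lf c a e))) := by
  refine isUnit_of_dvd_unit (map_dvd _ (map_dvd _ ?_)) (isUnit_dPhi lam c a)
  exact Dvd.dvd.mul_left (Finset.dvd_prod_of_mem (fun e => lf c a e) (Finset.mem_univ e)) _

theorem dz_mul : dz lam c a * (dpol lam c a (dPhi lam c a) - dz lam c a) = 1 := by
  linear_combination -(dz_eq lam c a)

theorem isUnit_dz : IsUnit (toD lam c a (dz lam c a)) :=
  (IsUnit.of_mul_eq_one _ (dz_mul lam c a)).map _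

/-- The unit `z`. -/
noncomputable def uz : (DOpen lam c a)ˣ := (isUnit_dz lam c a).unit

/-- The unit `L_e`. -/
noncomputable def du (e : Fin (m + 1)) : (DOpen lam c a)ˣ := (isUnit_dl lam c a e).unit

theorem coe_uz : (uz lam c a : DOpen lam c a) = toD lam c a (dz lam c a) := rfl

theorem coe_du (e : Fin (m + 1)) :
    (du lam c a e : DOpen lam c a) = toD lam c a (dpol lam c a (lf c a e)) := rfl

/-- The unit `γ_i L_{S i}`, where `∑_i γ_i L_{S i}` is constant. -/
noncomputable def dg (S : Fin (d + 2) → Fin (m + 1)) (i : Fin (d + 2)) : (DOpen lam c a)ˣ :=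
  Units.map (dcst lam c a : K →* DOpen lam c a) (ku (gam c S i)) * du lam c a (S i)

/-- The entries `z` and `γ_k L_{S k} / (γ_0 L_{S 0})`, `k = 1, ..., d + 1`, of the symbol of the
simplex with the facets `L_{S 0}, ..., L_{S (d + 1)}`. -/
noncomputable def dent (S : Fin (d + 2) → Fin (m + 1)) : Fin (d + 2) → (DOpen lam c a)ˣ :=
  Fin.cons (uz lam c a) fun k : Fin (d + 1) => dg lam c a S k.succ / dg lam c a S 0

end Ring

section Domain

variable {K : Type*} [Field K] {d m : ℕ} {lam : K} {c : Fin (m + 1) → Fin (d + 1) → K}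
  {a : Fin (m + 1) → K}

variable (lam c a) in
theorem monic_deqn : (deqn lam c a).Monic := by
  unfold deqn
  monicity!

variable (lam c a) in
theorem natDegree_deqn : (deqn lam c a).natDegree = 2 := by
  unfold deqn
  compute_degree!

/-- a form with a nonzero linear part is not constant -/
theorem lf_ne_C {e : Fin (m + 1)} (he : c e ≠ 0) (y : K) : lf c a e ≠ MvPolynomial.C y := by
  intro h
  apply he
  funext j
  have h1 := congrArg (MvPolynomial.eval (0 : Fin (d + 1) → K)) h
  have h2 := congrArg (MvPolynomial.eval (Pi.single j 1 : Fin (d + 1) → K)) h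
  unfold lf at h1 h2
  simp only [map_sub, map_sum, map_mul, MvPolynomial.eval_C, MvPolynomial.eval_X] at h1 h2
  simp only [Pi.zero_apply, mul_zero, Finset.sum_const_zero, zero_sub] at h1
  have h3 : ∑ x, c e x * (Pi.single j (1 : K) : Fin (d + 1) → K) x = c e j := by
    rw [Finset.sum_eq_single j]
    · rw [Pi.single_eq_same, mul_one]
    · intro i _ hi
      rw [Pi.single_eq_of_ne hi, mul_zero]
    · intro hj
      exact absurd (Finset.mem_univ j) hj
  rw [h3] at h2
  have h4 : c e j = 0 := by linear_combination h2 - h1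
  exact h4

theorem dPhi_ne_C (hc : ∀ e, c e ≠ 0) (hl : lam ≠ 0) (y : K) :
    dPhi lam c a ≠ MvPolynomial.C y := by
  intro h
  have hl0 : ∀ e, lf c a e ≠ 0 := fun e h0 => by
    refine lf_ne_C (a := a) (hc e) 0 ?_
    rw [h0, map_zero]
  by_cases hy : y = 0
  · rw [hy, map_zero] at h
    unfold dPhi at h
    rcases mul_eq_zero.1 h with h1 | h1
    · exact hl ((MvPolynomial.C_eq_zero).1 h1)
    · obtain ⟨e, -, he⟩ := Finset.prod_eq_zero_iff.1 h1
      exact hl0 e he
  · have hu : IsUnit (dPhi lam c a) := by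
      rw [h]
      exact (IsUnit.mk0 y hy).map MvPolynomial.C
    have hu0 : IsUnit (lf c a 0) := by
      refine isUnit_of_dvd_unit ?_ hu
      exact Dvd.dvd.mul_left (Finset.dvd_prod_of_mem (fun e => lf c a e) (Finset.mem_univ 0)) _
    obtain ⟨w, -, hw⟩ := MvPolynomial.isUnit_iff_eq_C_of_isReduced.1 hu0
    exact lf_ne_C (hc 0) w hw

theorem irreducible_deqn (hc : ∀ e, c e ≠ 0) (hl : lam ≠ 0) : Irreducible (deqn lam c a) := by
  rw [(monic_deqn lam c a).irreducible_iff_roots_eq_zero_of_degree_le_three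
    (by rw [natDegree_deqn]) (by rw [natDegree_deqn]; norm_num)]
  rw [Multiset.eq_zero_iff_forall_notMem]
  intro s hs
  rw [Polynomial.mem_roots (monic_deqn lam c a).ne_zero, Polynomial.IsRoot.def] at hs
  have hr' : s ^ 2 - dPhi lam c a * s + 1 = 0 := by
    simpa [deqn] using hs
  have h2 : s * (dPhi lam c a - s) = 1 := by linear_combination -hr'
  have h3 : IsUnit s := IsUnit.of_mul_eq_one _ h2
  have h4 : IsUnit (dPhi lam c a - s) := IsUnit.of_mul_eq_one s (by rw [mul_comm]; exact h2)
  obtain ⟨y, -, hy⟩ := MvPolynomial.isUnit_iff_eq_C_of_isReduced.1 h3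
  obtain ⟨w, -, hw⟩ := MvPolynomial.isUnit_iff_eq_C_of_isReduced.1 h4
  refine dPhi_ne_C (a := a) hc hl (y + w) ?_
  rw [map_add, ← hy, ← hw]
  ring

theorem isDomain_DRing (hc : ∀ e, c e ≠ 0) (hl : lam ≠ 0) : IsDomain (DRing lam c a) :=
  AdjoinRoot.isDomain_of_prime (irreducible_deqn hc hl).prime

theorem dpol_ne_zero {p : MvPolynomial (Fin (d + 1)) K} (hp : p ≠ 0) :
    dpol lam c a p ≠ 0 := by
  intro h
  have h1 : AdjoinRoot.mk (deqn lam c a) (Polynomial.C p) = 0 := h
  rw [AdjoinRoot.mk_eq_zero] at h1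
  refine (monic_deqn lam c a).not_dvd_of_natDegree_lt (by simpa using hp) ?_ h1
  rw [natDegree_deqn, Polynomial.natDegree_C]
  norm_num

theorem dpol_dPhi_ne_zero (hc : ∀ e, c e ≠ 0) (hl : lam ≠ 0) :
    dpol lam c a (dPhi lam c a) ≠ 0 := by
  refine dpol_ne_zero fun h => dPhi_ne_C (a := a) hc hl 0 ?_
  rw [h, map_zero]

theorem row_ne_zero (hdet : ∀ T : Fin (d + 1) → Fin (m + 1), Function.Injective T →
    (cm c T).det ≠ 0) (hm : d ≤ m) (e : Fin (m + 1)) : c e ≠ 0 := by
  classical
  intro h0
  obtain ⟨u, h1, -, h3⟩ := Finset.exists_subsuperset_card_eq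
    (Finset.subset_univ ({e} : Finset (Fin (m + 1)))) (n := d + 1)
    (by rw [Finset.card_singleton]; omega)
    (by rw [Finset.card_univ, Fintype.card_fin]; omega)
  refine hdet (u.orderEmbOfFin h3) (u.orderEmbOfFin h3).injective ?_
  have h4 : e ∈ Set.range (u.orderEmbOfFin h3) := by
    rw [Finset.range_orderEmbOfFin]
    exact h1 (Finset.mem_singleton_self e)
  obtain ⟨i, hi⟩ := h4
  refine Matrix.det_eq_zero_of_row_eq_zero i fun j => ?_
  show c (u.orderEmbOfFin h3 i) j = 0
  rw [hi, h0]
  rfl

end Domain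

section LiftD

variable {K : Type*} [Field K] {d m : ℕ} {lam : K} {c : Fin (m + 1) → Fin (d + 1) → K}
  {a : Fin (m + 1) → K} {S : Type*} [Field S]

/-- The extension of a homomorphism with `Φ ↦ g Φ ≠ 0` to the ring of the open part. -/
noncomputable def liftD (g : DRing lam c a →+* S) (hg : g (dpol lam c a (dPhi lam c a)) ≠ 0) :
    DOpen lam c a →+* S :=
  AdjoinRoot.lift g (g (dpol lam c a (dPhi lam c a)))⁻¹ (by
    unfold deqnO
    simp only [Polynomial.eval₂_sub, Polynomial.eval₂_mul, Polynomial.eval₂_X,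
      Polynomial.eval₂_C, Polynomial.eval₂_one]
    rw [mul_inv_cancel₀ hg, sub_self])

theorem liftD_toD (g : DRing lam c a →+* S) (hg : g (dpol lam c a (dPhi lam c a)) ≠ 0)
    (b : DRing lam c a) : liftD g hg (toD lam c a b) = g b :=
  AdjoinRoot.lift_of _

theorem liftD_mk (g : DRing lam c a →+* S) (hg : g (dpol lam c a (dPhi lam c a)) ≠ 0)
    (p : Polynomial (DRing lam c a)) :
    liftD g hg (AdjoinRoot.mk (deqnO lam c a) p : AdjoinRoot (deqnO lam c a)) =
      p.eval₂ g (g (dpol lam c a (dPhi lam c a)))⁻¹ :=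
  AdjoinRoot.lift_mk _ p

end LiftD

section Unram

variable {K : Type*} [Field K] {d m : ℕ} {lam : K} {c : Fin (m + 1) → Fin (d + 1) → K}
  {a : Fin (m + 1) → K}

variable {L : Type*} [Field L] (f : DOpen lam c a →+* L)

/-- the composite map from the coefficient field -/
noncomputable def cD : K →+* L := f.comp (dcst lam c a)

/-- the image of `x_j` -/
noncomputable def xD (j : Fin (d + 1)) : L := f (toD lam c a (dpol lam c a (MvPolynomial.X j)))

/-- the image of `z` -/
noncomputable def zD : L := f (toD lam c a (dz lam c a))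

/-- the image of `L_e` -/
noncomputable def lD (e : Fin (m + 1)) : L := ∑ j, cD f (c e j) * xD f j - cD f (a e)

theorem map_lf (e : Fin (m + 1)) : f (toD lam c a (dpol lam c a (lf c a e))) = lD f e := by
  unfold lf lD cD xD dcst
  rw [map_sub, map_sub, map_sub, map_sum, map_sum, map_sum]
  simp only [map_mul]
  rfl

theorem map_du (e : Fin (m + 1)) : f (du lam c a e : DOpen lam c a) = lD f e := by
  rw [coe_du, map_lf]

theorem map_dPhi : f (toD lam c a (dpol lam c a (dPhi lam c a))) = cD f lam * ∏ e, lD f e := by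
  unfold dPhi
  rw [map_mul, map_mul, map_mul, map_prod, map_prod, map_prod]
  simp only [map_lf]
  rfl

theorem zD_eq : zD f ^ 2 + 1 = (cD f lam * ∏ e, lD f e) * zD f := by
  have h := congrArg (fun b => f (toD lam c a b)) (dz_eq lam c a)
  simp only [map_add, map_sub, map_mul, map_pow, map_one, map_zero] at h
  rw [← map_dPhi]
  unfold zD
  linear_combination h

theorem zD_ne_zero : zD f ≠ 0 := ((isUnit_dz lam c a).map f).ne_zero

theorem lD_ne_zero (e : Fin (m + 1)) : lD f e ≠ 0 := by
  rw [← map_lf]
  exact ((isUnit_dl lam c a e).map f).ne_zero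

theorem map_dg (hA : Unimod c a) {S : Fin (d + 2) → Fin (m + 1)} (hS : Function.Injective S)
    (i : Fin (d + 2)) : f (dg lam c a S i : DOpen lam c a) = cD f (gam c S i) * lD f (S i) := by
  unfold dg
  rw [Units.val_mul, map_mul, map_du]
  congr 1
  rw [Units.coe_map]
  show f (dcst lam c a (ku (gam c S i) : K)) = _
  rw [coe_ku (hA.gam_ne hS i)]
  rfl

theorem sum_dg {S : Fin (d + 2) → Fin (m + 1)} :
    ∑ i, cD f (gam c S i) * lD f (S i) = - ∑ i, cD f (gam c S i * a (S i)) := by
  have h1 : ∀ i, cD f (gam c S i) * lD f (S i) =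
      ∑ j, cD f (gam c S i * c (S i) j) * xD f j - cD f (gam c S i * a (S i)) := by
    intro i
    unfold lD
    rw [mul_sub, Finset.mul_sum]
    simp only [map_mul, mul_assoc]
  simp only [h1, Finset.sum_sub_distrib]
  rw [Finset.sum_comm]
  have h2 : ∀ j, ∑ i, cD f (gam c S i * c (S i) j) * xD f j = 0 := by
    intro j
    rw [← Finset.sum_mul, ← map_sum, sum_gam, map_zero, zero_mul]
  simp only [h2, Finset.sum_const_zero, zero_sub]

/-- The coordinates are integral combinations of `d + 1` of the forms. -/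
theorem xD_eq (hA : Unimod c a) {T : Fin (d + 1) → Fin (m + 1)} (hT : Function.Injective T)
    (j : Fin (d + 1)) : xD f j =
      ∑ i, cD f (((cm c T).det)⁻¹ * (cm c T).adjugate j i) * (lD f (T i) + cD f (a (T i))) := by
  have h1 : ∀ i, lD f (T i) + cD f (a (T i)) = ∑ l, cD f (cm c T i l) * xD f l := by
    intro i
    unfold lD cm
    simp
  simp only [h1, Finset.mul_sum]
  rw [Finset.sum_comm]
  have h2 : ∀ l, ∑ i, cD f (((cm c T).det)⁻¹ * (cm c T).adjugate j i) *
      (cD f (cm c T i l) * xD f l) = (if j = l then 1 else 0) * xD f l := by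
    intro l
    simp only [← mul_assoc, ← Finset.sum_mul, ← map_mul, ← map_sum]
    congr 1
    have h3 : ∑ i, ((cm c T).det)⁻¹ * (cm c T).adjugate j i * cm c T i l =
        if j = l then 1 else 0 := by
      simp only [mul_assoc, ← Finset.mul_sum]
      have h4 := congrFun (congrFun (Matrix.adjugate_mul (cm c T)) j) l
      rw [Matrix.mul_apply] at h4
      rw [h4, Matrix.smul_apply, Matrix.one_apply, smul_eq_mul, ← mul_assoc,
        inv_mul_cancel₀ (hA.det_ne T hT), one_mul]
    rw [h3]
    split_ifs <;> simp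
  simp only [h2]
  simp

/-- The symbols are unramified at all discrete valuations. -/
theorem symb_mem_unitPart (hlam : IsIntegral ℤ lam) (hA : Unimod c a)
    (v : Valuation L ℤᵐ⁰) {S : Fin (d + 2) → Fin (m + 1)} (hS : Function.Injective S) :
    symb (fun l => Units.map (f : DOpen lam c a →* L) (dent lam c a S l)) ∈
      unitPart v (d + 2) := by
  have hc : ∀ x : K, IsIntegral ℤ x → v (cD f x) ≤ 1 := fun x hx =>
    Pool.Agent.TH826.MK.val_le_one_of_integral v (map_isIntegral_int _ hx)
  set z : Fin (d + 2) → Lˣ := fun k => Units.map (f : DOpen lam c a →* L) (dg lam c a S k) with hz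
  set w : Lˣ := Units.map (f : DOpen lam c a →* L) (uz lam c a) with hw
  have hwv : (w : L) = zD f := rfl
  have hzv : ∀ k, (z k : L) = cD f (gam c S k) * lD f (S k) := fun k => map_dg f hA hS k
  have hgam : ∀ k, v (cD f (gam c S k)) = 1 := by
    intro k
    refine le_antisymm (hc _ (hA.gam_int S k)) ?_
    have h1 := hc _ (hA.gam_inv hS k)
    rw [map_inv₀, map_inv₀] at h1
    have h0 : cD f (gam c S k) ≠ 0 := (map_ne_zero _).2 (hA.gam_ne hS k)
    rwa [inv_le_one₀ (by rw [Valuation.pos_iff]; exact h0)] at h1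
  have hvz : ∀ k, v (z k : L) = v (lD f (S k)) := by
    intro k
    rw [hzv, map_mul, hgam, one_mul]
  have hent : (fun l => Units.map (f : DOpen lam c a →* L) (dent lam c a S l)) =
      (Fin.cons w fun l : Fin (d + 1) => z l.succ / z 0 : Fin (d + 2) → Lˣ) := by
    funext l
    refine Fin.cases ?_ (fun l => ?_) l
    · rfl
    · rw [Fin.cons_succ]
      exact map_div (Units.map (f : DOpen lam c a →* L)) _ _
  rw [hent]
  by_cases hB : ∃ k, 1 < v (z k : L)
  · obtain ⟨k, hk⟩ := hB
    obtain ⟨l, -, hl⟩ := Finset.exists_max_image Finset.univ (fun k => v (z k : L))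
      ⟨k, Finset.mem_univ k⟩
    have h2 : 1 < v (z l : L) := hk.trans_le (hl k (Finset.mem_univ k))
    refine cons_mem_unitPart_of_sum_lt v w z l (fun k => hl k (Finset.mem_univ k)) ?_
    refine lt_of_le_of_lt ?_ h2
    simp only [hzv]
    rw [sum_dg f, Valuation.map_neg]
    exact Valuation.map_sum_le v fun k _ => hc _ ((hA.gam_int S k).mul (hA.int_a _))
  · push Not at hB
    have hSk : ∀ k, v (lD f (S k)) ≤ 1 := fun k => by
      rw [← hvz]
      exact hB k
    -- the coordinates are integral
    have hT : Function.Injective fun p : Fin (d + 1) => S ((0 : Fin (d + 2)).succAbove p) :=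
      injective_face hS 0
    have hx : ∀ j, v (xD f j) ≤ 1 := by
      intro j
      rw [xD_eq f hA hT j]
      refine Valuation.map_sum_le v fun i _ => ?_
      rw [map_mul]
      refine mul_le_one' (hc _ ((hA.det_inv _ hT).mul (isIntegral_adj hA _ _ _))) ?_
      exact (v.map_add _ _).trans (max_le (hSk _) (hc _ (hA.int_a _)))
    have hle : ∀ e, v (lD f e) ≤ 1 := by
      intro e
      refine (v.map_sub _ _).trans (max_le ?_ (hc _ (hA.int_a _)))
      refine Valuation.map_sum_le v fun j _ => ?_
      rw [map_mul]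
      exact mul_le_one' (hc _ (hA.int_c _ _)) (hx j)
    have hPhi : v (cD f lam * ∏ e, lD f e) ≤ 1 := by
      rw [map_mul, map_prod]
      exact mul_le_one' (hc _ hlam) (Finset.prod_le_one' fun e _ => hle e)
    have hq := zD_eq f
    have hq0 := zD_ne_zero f
    set q := zD f with hqdef
    set P := cD f lam * ∏ e, lD f e with hP
    have hq1 : v q = 1 := by
      rcases lt_trichotomy (v q) 1 with h | h | h
      · exfalso
        have h1 : v (q ^ 2 + 1) = 1 := by
          rw [add_comm]
          refine Valuation.map_one_add_of_lt v ?_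
          rw [map_pow]
          exact pow_lt_one₀ zero_le h (by norm_num)
        rw [hq, map_mul] at h1
        have h2 : v P * v q < 1 := by
          calc v P * v q ≤ 1 * v q := mul_le_mul_left hPhi _
            _ = v q := one_mul _
            _ < 1 := h
        exact h2.ne h1
      · exact h
      · exfalso
        have h1 : v (q ^ 2 + 1) = v q ^ 2 := by
          rw [← map_pow]
          refine Valuation.map_add_eq_of_lt_left v ?_
          rw [map_one, map_pow]
          exact one_lt_pow₀ h (by norm_num)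
        rw [hq, map_mul, pow_two] at h1
        have h2 : v P = v q := mul_right_cancel₀ ((Valuation.ne_zero_iff v).2 hq0) h1
        rw [h2] at hPhi
        exact absurd h (not_lt.2 hPhi)
    by_cases hB1 : ∀ e, v (lD f e) = 1
    · refine Submodule.subset_span ⟨_, fun l => ?_, rfl⟩
      refine Fin.cases ?_ (fun l => ?_) l
      · exact hq1
      · rw [Fin.cons_succ, Units.val_div_eq_div_val, map_div₀, hvz, hvz, hB1, hB1, div_one]
    · push Not at hB1
      obtain ⟨e, he⟩ := hB1
      have hlt : v (lD f e) < 1 := lt_of_le_of_ne (hle e) he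
      have hPlt : v P < 1 := by
        rw [hP, map_mul, map_prod, ← Finset.mul_prod_erase _ _ (Finset.mem_univ e)]
        have h1 : ∏ x ∈ Finset.univ.erase e, v (lD f x) ≤ 1 :=
          Finset.prod_le_one' fun j _ => hle j
        have h2 := mul_lt_one_of_lt_of_le hlt h1
        calc _ ≤ 1 * _ := mul_le_mul_left (hc _ hlam) _
          _ = _ := one_mul _
          _ < 1 := h2
      refine Pool.Agent.TH826.MK.mem_unitPart_of_pow v 0 (m := 4) _ (by norm_num) ?_
      rw [Fin.cons_zero, hwv]
      have e : q ^ 4 - 1 = (q ^ 2 + 1) * (q ^ 2 - 1) := by ring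
      rw [e, hq, map_mul, map_mul, hq1, mul_one]
      have h5 : v (q ^ 2 - 1) ≤ 1 := by
        refine (v.map_sub _ _).trans ?_
        rw [map_pow, hq1, one_pow, map_one, max_self]
      exact mul_lt_one_of_lt_of_le hPlt h5

theorem symb_mem_unramified (hlam : IsIntegral ℤ lam) (hA : Unimod c a)
    {S : Fin (d + 2) → Fin (m + 1)} (hS : Function.Injective S) :
    KQ.map (d + 2) f (symb (dent lam c a S)) ∈ Unramified L (d + 2) := by
  rw [KQ.map_symb]
  unfold Unramified
  simp only [Submodule.mem_iInf]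
  intro v _
  exact symb_mem_unitPart f hlam hA v hS

end Unram

end Pool.Agent.TH826.DC
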